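import Pool.Agent.H11.EA.ZF

set_option autoImplicit false

open Finset

namespace H11.EA

open H2.EA

theorem t_CH (hLOG1 : S_LOG1) : S_CH := by
  intro p _ H _ M _ _ act hcomm hnil f hf hs x y
  -- the operators `x - 1` on `M × ZMod p`
  let nn : H → Module.End (ZMod p) (M × ZMod p) := fun x =>
    { toFun := fun q => ((act x - 1) q.1 + q.2 • f x, 0)
      map_add' := by
        intro q r
        ext
        · simp only [Prod.fst_add, Prod.snd_add, map_add, add_smul]
          abel
        · simp
      map_smul' := by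
        intro c q
        ext
        · simp only [Prod.smul_fst, Prod.smul_snd, map_smul, RingHom.id_apply, smul_add, smul_eq_mul,
            mul_smul]
        · simp }
  have nn_apply : ∀ x (q : M × ZMod p), nn x q = ((act x - 1) q.1 + q.2 • f x, 0) := fun _ _ => rfl
  have hcm : Commute (nn x) (nn y) := by
    refine LinearMap.ext fun q => ?_
    rw [Module.End.mul_apply, Module.End.mul_apply, nn_apply, nn_apply, nn_apply, nn_apply]
    ext
    · simp only [zero_smul, add_zero, map_add, map_smul]
      rw [hs y x, ← Module.End.mul_apply, ← Module.End.mul_apply]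
      congr 2
      have : Commute (act x - 1) (act y - 1) :=
        ((hcomm x y).sub_left (Commute.one_left _)).sub_right (Commute.one_right _)
      exact this.eq
    · rfl
  have hmul : nn (x * y) = nn x + nn y + nn x * nn y := by
    refine LinearMap.ext fun q => ?_
    rw [LinearMap.add_apply, LinearMap.add_apply, Module.End.mul_apply, nn_apply, nn_apply,
      nn_apply, nn_apply, hf, map_mul]
    ext
    · simp only [zero_smul, add_zero, map_add, map_smul, Prod.fst_add, smul_add,
        LinearMap.sub_apply, Module.End.mul_apply, Module.End.one_apply, map_sub, smul_sub]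
      abel
    · simp
  have hpow1 : ∀ x (i : ℕ) (m : M), ((nn x) ^ i) (m, 0) = (((act x - 1) ^ i) m, 0) := by
    intro x i
    induction i with
    | zero => intro m; simp
    | succ i ih =>
      intro m
      rw [pow_succ, pow_succ, Module.End.mul_apply, nn_apply, zero_smul, add_zero, ih,
        Module.End.mul_apply]
  have hpow2 : ∀ x (i : ℕ), ((nn x) ^ (i + 1)) (0, 1) = (((act x - 1) ^ i) (f x), 0) := by
    intro x i
    rw [pow_succ, Module.End.mul_apply, nn_apply]
    simp only [map_zero, zero_add, one_smul]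
    exact hpow1 x i (f x)
  have htl : ∀ x, tl p (nn x) (0, 1) = (tq p (act x - 1) (f x), 0) := by
    intro x
    rw [tl, tq, LinearMap.sum_apply, LinearMap.sum_apply]
    simp only [LinearMap.smul_apply, hpow2]
    ext
    · rw [Prod.fst_sum]
      simp
    · rw [Prod.snd_sum]
      simp
  have hL := hLOG1 p (M × ZMod p) (nn x) (nn y) hcm (0, 1) (by
    intro i j hij
    rw [Module.End.mul_apply]
    rcases Nat.eq_zero_or_pos j with hj | hj
    · subst hj
      rw [pow_zero, Module.End.one_apply]
      have h2 : 2 ≤ p := (Fact.out : p.Prime).two_le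
      obtain ⟨i', rfl⟩ : ∃ i', i = i' + 1 := ⟨i - 1, by omega⟩
      rw [hpow2]
      have h0 := hnil x x i' 0 (by omega)
      rw [pow_zero, mul_one] at h0
      rw [h0]; rfl
    · obtain ⟨j', rfl⟩ : ∃ j', j = j' + 1 := ⟨j - 1, by omega⟩
      rw [hpow2, hpow1, ← Module.End.mul_apply, hnil x y i j' (by omega)]
      rfl)
  rw [← hmul, htl, htl, htl] at hL
  have := congrArg Prod.fst hL
  simpa using this

section
variable {p : ℕ} [Fact p.Prime] {G A : Type} [Group G] [AddCommGroup A] [Module (ZMod p) A]
  (D : Dat p G A)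

/-- the action on the quotient -/
noncomputable def actM (K : Subgroup G) (B : Submodule (ZMod p) A)
    (hB : ∀ g, ∀ b ∈ B, D.act g b ∈ B) : K →* Module.End (ZMod p) (A ⧸ B) where
  toFun x := B.mapQ B (D.act (x : G)) (fun b hb => hB x b hb)
  map_one' := by
    refine LinearMap.ext fun q => ?_
    obtain ⟨a, rfl⟩ := Submodule.Quotient.mk_surjective B q
    rw [Submodule.mapQ_apply]
    simp
  map_mul' x y := by
    refine LinearMap.ext fun q => ?_
    obtain ⟨a, rfl⟩ := Submodule.Quotient.mk_surjective B q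
    rw [Module.End.mul_apply, Submodule.mapQ_apply, Submodule.mapQ_apply, Submodule.mapQ_apply]
    simp

theorem actM_sub_pow (K : Subgroup G) (B : Submodule (ZMod p) A)
    (hB : ∀ g, ∀ b ∈ B, D.act g b ∈ B) (x : K) (i : ℕ) (a : A) :
    ((actM D K B hB x - 1) ^ i) (Submodule.Quotient.mk a) =
      Submodule.Quotient.mk (((D.N (x : G)) ^ i) a) := by
  induction i generalizing a with
  | zero => simp
  | succ i ih =>
    rw [pow_succ, pow_succ, Module.End.mul_apply, Module.End.mul_apply]
    have h1 : (actM D K B hB x - 1) (Submodule.Quotient.mk a) =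
        Submodule.Quotient.mk (D.N (x : G) a) := by
      rw [LinearMap.sub_apply, Module.End.one_apply]
      change B.mapQ B (D.act (x : G)) (fun b hb => hB x b hb) (Submodule.Quotient.mk a) - _ = _
      rw [Submodule.mapQ_apply, ← Submodule.Quotient.mk_sub]
      rfl
    rw [h1, ih]

theorem quot_step (hLOG1 : S_LOG1) (K : Subgroup G) (hA : ∀ x, D.ι x ∈ K)
    (hZ : D.Z K (p - 1) = ⊤) (n : ℕ) (co : Coord D K n) (B : Submodule (ZMod p) A)
    (hB : ∀ g, ∀ b ∈ B, D.act g b ∈ B) (f : G → A)
    (hf : ∀ x ∈ K, ∀ y ∈ K, f (x * y) = f x + D.act x (f y))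
    (hs : ∀ x ∈ K, ∀ y ∈ K, f (x * y) - f (y * x) ∈ B)
    (hι : ∀ a, f (D.ι a) ∈ B) (v : A →ₗ[ZMod p] ZMod p) (hv : ∀ b ∈ B, v b = 0) :
    ∀ x ∈ D.stabK K v, v (f x) = ∑ i, co.α x i * v (D.lq (co.k i) (f (co.k i))) := by
  intro x hx
  have htq : ∀ (x : K) (a : A), tq p (actM D K B hB x - 1) (Submodule.Quotient.mk a) =
      Submodule.Quotient.mk (D.lq (x : G) a) := by
    intro x a
    unfold Dat.lq
    rw [tq, tq, LinearMap.sum_apply, LinearMap.sum_apply]
    have : (Submodule.Quotient.mk (∑ i ∈ Finset.range (p - 1),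
        (((-1 : ZMod p) ^ i * ((i + 1 : ℕ) : ZMod p)⁻¹) • D.N (x : G) ^ i) a) : A ⧸ B) =
        B.mkQ (∑ i ∈ Finset.range (p - 1),
        (((-1 : ZMod p) ^ i * ((i + 1 : ℕ) : ZMod p)⁻¹) • D.N (x : G) ^ i) a) := rfl
    rw [this, map_sum]
    refine Finset.sum_congr rfl fun i _ => ?_
    rw [LinearMap.smul_apply, LinearMap.smul_apply, actM_sub_pow, map_smul]
    rfl
  have hCH := t_CH hLOG1 p K (A ⧸ B) (actM D K B hB) (by
      intro x y
      refine LinearMap.ext fun q => ?_
      obtain ⟨a, rfl⟩ := Submodule.Quotient.mk_surjective B q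
      change Submodule.Quotient.mk (D.act x (D.act y a)) = Submodule.Quotient.mk (D.act y (D.act x a))
      rw [← Module.End.mul_apply, D.act_comm, Module.End.mul_apply]) (by
      intro x y i j hij
      refine LinearMap.ext fun q => ?_
      obtain ⟨a, rfl⟩ := Submodule.Quotient.mk_surjective B q
      rw [Module.End.mul_apply, actM_sub_pow, actM_sub_pow]
      have ha : a ∈ D.Z K (p - 1) := by rw [hZ]; trivial
      have h1 := Z_pow D K x x.2 i _ _ (Z_pow D K y y.2 j (p - 1) a ha)
      have h2 : p - 1 - j - i = 0 := by omega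
      rw [h2, D.mem_Z_zero] at h1
      rw [h1]
      rfl) (fun x => Submodule.Quotient.mk (f (x : G))) (by
      intro x y
      rw [Subgroup.coe_mul, hf x x.2 y y.2, Submodule.Quotient.mk_add]
      rfl) (by
      intro x y
      have h1 := hs x x.2 y y.2
      rw [hf x x.2 y y.2, hf y y.2 x x.2] at h1
      have h2 : (actM D K B hB y - 1) (Submodule.Quotient.mk (f (x : G))) =
          Submodule.Quotient.mk (D.N (y : G) (f x)) := by
        simpa using actM_sub_pow D K B hB y 1 (f x)
      have h3 : (actM D K B hB x - 1) (Submodule.Quotient.mk (f (y : G))) =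
          Submodule.Quotient.mk (D.N (x : G) (f y)) := by
        simpa using actM_sub_pow D K B hB x 1 (f y)
      rw [h2, h3, Submodule.Quotient.eq]
      have h4 := B.neg_mem h1
      convert h4 using 1
      unfold Dat.N
      simp only [LinearMap.sub_apply, Module.End.one_apply]
      abel)
  have hadd : ∀ x ∈ K, ∀ y ∈ K,
      (Submodule.Quotient.mk (D.lq (x * y) (f (x * y))) : A ⧸ B) =
      Submodule.Quotient.mk (D.lq x (f x)) + Submodule.Quotient.mk (D.lq y (f y)) := by
    intro x hx y hy
    have := hCH ⟨x, hx⟩ ⟨y, hy⟩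
    rw [htq, htq, htq] at this
    exact this
  have hH := (t_HOM p G A D K n co hA).1 (A ⧸ B)
    (fun x => Submodule.Quotient.mk (D.lq x (f x))) hadd (by
      intro a
      rw [lq_ι, Module.End.one_apply, Submodule.Quotient.mk_eq_zero]
      exact hι a) x hx.2
  have hvB : B ≤ LinearMap.ker v := fun b hb => hv b hb
  have h5 := congrArg (B.liftQ v hvB) hH
  rw [map_sum] at h5
  have h6 : ∀ a : A, (B.liftQ v hvB) (Submodule.Quotient.mk a) = v a := fun a =>
    Submodule.liftQ_apply B v a
  simp only [map_smul, h6, smul_eq_mul] at h5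
  rw [v_lq D v x (D.mem_stab.mp hx.1)] at h5
  exact h5

end

theorem t_LIN (hLOG1 : S_LOG1) : S_LIN := by
  intro p _ G A _ _ _ D K hA hZ n co v x hx y hy
  have hp2 : 2 ≤ p := (Fact.out : p.Prime).two_le
  have hZp : D.Z K p = ⊤ := by
    have h := Z_mono D K (p - 1)
    rw [hZ, Nat.sub_add_cancel (by omega)] at h
    exact top_le_iff.mp h
  have hZF := t_ZF hLOG1 p G A D
  -- the commutator of a product in the other order
  have hsw : ∀ s t : G, s * t = D.ι (D.c s t) * (t * s) := by
    intro s t
    rw [D.ι_c]; group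
  -- step 1
  have h1 : ∀ x ∈ D.stabK K v, ∀ y ∈ D.stabK K v,
      v (D.c x y) = ∑ i, co.α x i * v (D.lq (co.k i) (D.c (co.k i) y)) := by
    intro x hx y hy
    refine quot_step D hLOG1 K hA hZ n co (LinearMap.range (D.N y)) ?_ (fun s => D.c s y) ?_ ?_ ?_
      v ?_ x hx
    · rintro g _ ⟨b, rfl⟩
      refine ⟨D.act g b, ?_⟩
      rw [← Module.End.mul_apply, ← (act_N_commute D g y).eq, Module.End.mul_apply]
    · intro s _ t _
      exact D.c_mul_left s t y
    · intro s _ t _
      refine ⟨-(D.c s t), ?_⟩
      rw [hsw s t, D.c_mul_left (D.ι _), D.act_ι, D.c_ι_left]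
      unfold Dat.N
      simp only [LinearMap.sub_apply, Module.End.one_apply, map_neg]
      abel
    · intro a
      refine ⟨-a, ?_⟩
      rw [D.c_ι_left]
      unfold Dat.N
      simp only [LinearMap.sub_apply, Module.End.one_apply, map_neg]
      abel
    · rintro _ ⟨b, rfl⟩
      exact v_N D v y (D.mem_stab.mp hy.1) b
  rw [h1 x hx y hy]
  -- step 2
  let h : G → A := fun t => ∑ i, co.α x i • D.lq (co.k i) (D.c (co.k i) t)
  have hlg : ∀ w : A, D.lg x w = ∑ i, co.α x i • D.lg (co.k i) w := by
    intro w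
    exact (t_HOM p G A D K n co hA).1 A (fun s => D.lg s w) (by
      intro s hs t ht
      exact hZF.2.2.2.2.2.1 K s hs t ht w (by rw [hZp]; trivial)) (by
      intro a
      rw [lg_ι]; rfl) x hx.2
  have hkey : ∀ w : A, ∑ i, co.α x i • D.lq (co.k i) (D.N (co.k i) w) = D.lg x w := by
    intro w
    rw [hlg w]
    refine Finset.sum_congr rfl fun i _ => ?_
    rw [D.lg_eq', Module.End.mul_apply]
  have hstep := quot_step D hLOG1 K hA hZ n co (LinearMap.range (D.N x)) (by
      rintro g _ ⟨b, rfl⟩
      refine ⟨D.act g b, ?_⟩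
      rw [← Module.End.mul_apply, ← (act_N_commute D g x).eq, Module.End.mul_apply]) h (by
      intro s _ t _
      simp only [h]
      rw [map_sum, ← Finset.sum_add_distrib]
      refine Finset.sum_congr rfl fun i _ => ?_
      rw [D.c_mul_right, map_add, smul_add, map_smul, ← Module.End.mul_apply,
        (lq_act_commute D (co.k i) s).eq, Module.End.mul_apply]) (by
      intro s _ t _
      refine ⟨D.lq x (D.c s t), ?_⟩
      rw [← Module.End.mul_apply, ← D.lg_eq, ← hkey]
      simp only [h]
      rw [← Finset.sum_sub_distrib]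
      refine Finset.sum_congr rfl fun i _ => ?_
      rw [← smul_sub, ← map_sub]
      congr 2
      rw [hsw s t, D.c_mul_right _ (D.ι _), D.act_ι, D.c_ι_right]
      unfold Dat.N
      simp only [LinearMap.sub_apply, Module.End.one_apply]
      abel) (by
      intro a
      refine ⟨D.lq x a, ?_⟩
      rw [← Module.End.mul_apply, ← D.lg_eq, ← hkey]
      simp only [h]
      refine Finset.sum_congr rfl fun i _ => ?_
      congr 2
      rw [D.c_ι_right]
      rfl) v (by
      rintro _ ⟨b, rfl⟩
      exact v_N D v x (D.mem_stab.mp hx.1) b) y hy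
  have h3 : v (h y) = ∑ i, co.α x i * v (D.lq (co.k i) (D.c (co.k i) y)) := by
    simp only [h, map_sum, map_smul, smul_eq_mul]
  rw [← h3, hstep]
  simp only [h, map_sum, map_smul, smul_eq_mul, Finset.mul_sum]
  rw [Finset.sum_comm]
  refine Finset.sum_congr rfl fun i _ => Finset.sum_congr rfl fun j _ => ?_
  unfold CC
  rw [(lq_commute D (co.k i) (co.k j)).eq, Module.End.mul_apply]
  ring

end H11.EA
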