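import Pool.Agent.H2.EA.Stm

set_option autoImplicit false

open Finset MvPolynomial

namespace H11.EA

variable {p : ℕ} [Fact p.Prime]

theorem tl_map {R S : Type*} [Ring R] [Ring S] [Algebra (ZMod p) R] [Algebra (ZMod p) S]
    (f : R →ₐ[ZMod p] S) (x : R) : f (H2.EA.tl p x) = H2.EA.tl p (f x) := by
  simp [H2.EA.tl, map_sum, map_smul, map_pow]

/-- `(1 + t) D (tl t) = (1 - (-t)^(p-1)) D t` -/
theorem pderiv_tl (i : Fin 2) (t : MvPolynomial (Fin 2) (ZMod p)) :
    (1 + t) * pderiv i (H2.EA.tl p t) = (1 - (-t) ^ (p - 1)) * pderiv i t := by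
  have h1 : pderiv i (H2.EA.tl p t) = (∑ j ∈ Finset.range (p - 1), (-t) ^ j) * pderiv i t := by
    rw [H2.EA.tl, map_sum, Finset.sum_mul]
    refine Finset.sum_congr rfl fun j hj => ?_
    have hjp : j + 1 < p := by
      have := Finset.mem_range.mp hj
      omega
    have hne : ((j + 1 : ℕ) : ZMod p) ≠ 0 := by
      intro h0
      rw [ZMod.natCast_eq_zero_iff] at h0
      exact absurd (Nat.le_of_dvd (by omega) h0) (by omega)
    rw [Derivation.map_smul, pderiv_pow, Nat.add_sub_cancel, ← C_mul']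
    have hcast : ((j + 1 : ℕ) : MvPolynomial (Fin 2) (ZMod p)) = C ((j + 1 : ℕ) : ZMod p) := by
      simp
    rw [hcast]
    have h2 : (C ((-1 : ZMod p) ^ j * ((j + 1 : ℕ) : ZMod p)⁻¹) : MvPolynomial (Fin 2) (ZMod p))
        * C ((j + 1 : ℕ) : ZMod p) = (-1) ^ j := by
      rw [← C_mul, mul_assoc, inv_mul_cancel₀ hne, mul_one]
      simp
    calc _ = (C ((-1 : ZMod p) ^ j * ((j + 1 : ℕ) : ZMod p)⁻¹)
        * C ((j + 1 : ℕ) : ZMod p)) * t ^ j * pderiv i t := by ring
      _ = _ := by rw [h2, neg_pow t j]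
  rw [h1, ← mul_assoc]
  congr 1
  have := mul_neg_geom_sum (-t) (p - 1)
  rwa [sub_neg_eq_add] at this

theorem key (Φ : MvPolynomial (Fin 2) (ZMod p))
    (hΦ : Φ = H2.EA.tl p (X 0 + X 1 + X 0 * X 1) - H2.EA.tl p (X 0) - H2.EA.tl p (X 1))
    (i j : Fin 2) (hij : (i = 0 ∧ j = 1) ∨ (i = 1 ∧ j = 0)) :
    pderiv i Φ ∈ idealOfVars (Fin 2) (ZMod p) ^ (p - 1) := by
  set I := idealOfVars (Fin 2) (ZMod p) with hI
  have hX : ∀ k : Fin 2, (X k : MvPolynomial (Fin 2) (ZMod p)) ∈ I := fun k =>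
    Ideal.subset_span ⟨k, rfl⟩
  have hΦ' : Φ = H2.EA.tl p (X i + X j + X i * X j) - H2.EA.tl p (X i) - H2.EA.tl p (X j) := by
    rcases hij with ⟨rfl, rfl⟩ | ⟨rfl, rfl⟩
    · exact hΦ
    · rw [hΦ, add_comm (X 0 : MvPolynomial (Fin 2) (ZMod p)) (X 1),
        mul_comm (X 0 : MvPolynomial (Fin 2) (ZMod p)) (X 1)]
      ring
  have hne : i ≠ j := by
    rcases hij with ⟨rfl, rfl⟩ | ⟨rfl, rfl⟩ <;> decide
  set t : MvPolynomial (Fin 2) (ZMod p) := X i + X j + X i * X j with ht
  have htI : t ∈ I := by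
    rw [ht]
    exact I.add_mem (I.add_mem (hX _) (hX _)) (I.mul_mem_left _ (hX _))
  have hpt : pderiv i t = 1 + X j := by
    rw [ht, map_add, map_add, pderiv_mul, pderiv_X_self, pderiv_X_of_ne hne.symm]
    ring
  have h1 : (1 + X i) * pderiv i (H2.EA.tl p t) = 1 - (-t) ^ (p - 1) := by
    have h := pderiv_tl i t
    rw [hpt, show 1 + t = (1 + X i) * (1 + X j) by rw [ht]; ring] at h
    have hne0 : (1 + X j : MvPolynomial (Fin 2) (ZMod p)) ≠ 0 := by
      intro h0
      have := congrArg (MvPolynomial.eval (fun _ => (0 : ZMod p))) h0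
      simp at this
    apply mul_right_cancel₀ hne0
    rw [← h]; ring
  have h2 : (1 + X i) * pderiv i (H2.EA.tl p (X i)) =
      1 - (-X i : MvPolynomial (Fin 2) (ZMod p)) ^ (p - 1) := by
    have h := pderiv_tl i (X i : MvPolynomial (Fin 2) (ZMod p))
    rwa [pderiv_X_self, mul_one] at h
  have h3 : pderiv i (H2.EA.tl p (X j : MvPolynomial (Fin 2) (ZMod p))) = 0 := by
    have h := pderiv_tl i (X j : MvPolynomial (Fin 2) (ZMod p))
    rw [pderiv_X_of_ne hne.symm, mul_zero] at h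
    have hne0 : (1 + X j : MvPolynomial (Fin 2) (ZMod p)) ≠ 0 := by
      intro h0
      have := congrArg (MvPolynomial.eval (fun _ => (0 : ZMod p))) h0
      simp at this
    exact (mul_eq_zero.mp h).resolve_left hne0
  have h4 : (1 + X i) * pderiv i Φ = (-X i) ^ (p - 1) - (-t) ^ (p - 1) := by
    rw [hΦ', map_sub, map_sub, h3, sub_zero, mul_sub, h1, h2]
    ring
  have h5 : (1 + X i) * pderiv i Φ ∈ I ^ (p - 1) := by
    rw [h4]
    exact Ideal.sub_mem _ (Ideal.pow_mem_pow (I.neg_mem (hX i)) _)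
      (Ideal.pow_mem_pow (I.neg_mem htI) _)
  have h6 : (∑ k ∈ Finset.range (p - 1), (-(X i : MvPolynomial (Fin 2) (ZMod p))) ^ k) * (1 + X i)
      = 1 - (-X i) ^ (p - 1) := by
    have := mul_neg_geom_sum (-(X i : MvPolynomial (Fin 2) (ZMod p))) (p - 1)
    rw [sub_neg_eq_add, mul_comm] at this
    exact this
  have h7 : pderiv i Φ = (∑ k ∈ Finset.range (p - 1),
      (-(X i : MvPolynomial (Fin 2) (ZMod p))) ^ k) * ((1 + X i) * pderiv i Φ)
      + pderiv i Φ * (-X i) ^ (p - 1) := by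
    rw [← mul_assoc, h6]; ring
  rw [h7]
  exact Ideal.add_mem _ (Ideal.mul_mem_left _ _ h5)
    (Ideal.mul_mem_left _ _ (Ideal.pow_mem_pow (I.neg_mem (hX i)) _))

theorem key2 : (H2.EA.tl p (X 0 + X 1 + X 0 * X 1) - H2.EA.tl p (X 0) - H2.EA.tl p (X 1)
    : MvPolynomial (Fin 2) (ZMod p)) ∈ idealOfVars (Fin 2) (ZMod p) ^ p := by
  set Φ : MvPolynomial (Fin 2) (ZMod p) :=
    H2.EA.tl p (X 0 + X 1 + X 0 * X 1) - H2.EA.tl p (X 0) - H2.EA.tl p (X 1) with hΦ
  rw [mem_pow_idealOfVars_iff']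
  intro m hm
  have hpos : 0 < p := (Fact.out : p.Prime).pos
  by_cases hm0 : m = 0
  · subst hm0
    have h0 : ∀ u : MvPolynomial (Fin 2) (ZMod p), coeff 0 u = 0 → coeff 0 (H2.EA.tl p u) = 0 := by
      intro u hu
      have hu' : constantCoeff u = 0 := hu
      change constantCoeff (H2.EA.tl p u) = 0
      rw [H2.EA.tl, map_sum]
      refine Finset.sum_eq_zero fun j _ => ?_
      rw [← C_mul', map_mul, map_pow, hu', zero_pow (by omega), mul_zero]
    rw [hΦ, coeff_sub, coeff_sub, h0, h0, h0] <;> simp [← constantCoeff_eq]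
  · obtain ⟨i, hi⟩ : ∃ i, m i ≠ 0 := by
      by_contra hcon
      push Not at hcon
      exact hm0 (Finsupp.ext hcon)
    obtain ⟨j, hij⟩ : ∃ j, (i = 0 ∧ j = 1) ∨ (i = (1 : Fin 2) ∧ j = (0 : Fin 2)) := by
      fin_cases i
      · exact ⟨1, Or.inl ⟨rfl, rfl⟩⟩
      · exact ⟨0, Or.inr ⟨rfl, rfl⟩⟩
    have hk := key Φ hΦ i j hij
    rw [mem_pow_idealOfVars_iff'] at hk
    have hdeg : Finsupp.degree m = Finsupp.degree (m - Finsupp.single i 1) + 1 := by
      have hle : Finsupp.single i 1 ≤ m := by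
        rw [Finsupp.single_le_iff]; omega
      conv_lhs => rw [← tsub_add_cancel_of_le hle]
      rw [map_add]; simp
    have h1 := hk (m - Finsupp.single i 1) (by omega)
    rw [coeff_pderiv] at h1
    have hle : Finsupp.single i 1 ≤ m := by
      rw [Finsupp.single_le_iff]; omega
    rw [tsub_add_cancel_of_le hle] at h1
    have hmi : (((m - Finsupp.single i 1 : Fin 2 →₀ ℕ) i : ℕ) : ZMod p) + 1 = ((m i : ℕ) : ZMod p) := by
      rw [Finsupp.tsub_apply, Finsupp.single_eq_same]
      have : (((m i - 1 : ℕ) : ZMod p)) + 1 = (((m i - 1) + 1 : ℕ) : ZMod p) := by push_cast; ring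
      rw [this]; congr 1; omega
    rw [hmi] at h1
    have hmile : m i ≤ Finsupp.degree m := Finsupp.le_degree i m
    have hne : ((m i : ℕ) : ZMod p) ≠ 0 := by
      intro h0
      rw [ZMod.natCast_eq_zero_iff] at h0
      exact absurd (Nat.le_of_dvd (by omega) h0) (by omega)
    exact (mul_eq_zero.mp h1).resolve_right hne

theorem t_LOG1 : H2.EA.S_LOG1 := by
  intro p _ M _ _ x y hxy a hxa
  have hcomm : ∀ u ∈ ({x, y} : Set (Module.End (ZMod p) M)), ∀ w ∈ ({x, y} : Set (Module.End (ZMod p) M)),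
      u * w = w * u := by
    intro u hu w hw
    simp only [Set.mem_insert_iff, Set.mem_singleton_iff] at hu hw
    rcases hu with rfl | rfl <;> rcases hw with rfl | rfl
    · rfl
    · exact hxy
    · exact hxy.symm
    · rfl
  have hIs := Algebra.isMulCommutative_adjoin (ZMod p) hcomm
  let inst : CommRing (Algebra.adjoin (ZMod p) ({x, y} : Set (Module.End (ZMod p) M))) :=
    { (inferInstance : Ring (Algebra.adjoin (ZMod p) ({x, y} : Set (Module.End (ZMod p) M)))) with
      mul_comm := hIs.is_comm.comm }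
  let S := Algebra.adjoin (ZMod p) ({x, y} : Set (Module.End (ZMod p) M))
  let x' : S := ⟨x, Algebra.subset_adjoin (by simp)⟩
  let y' : S := ⟨y, Algebra.subset_adjoin (by simp)⟩
  let F : MvPolynomial (Fin 2) (ZMod p) →ₐ[ZMod p] Module.End (ZMod p) M :=
    (Subalgebra.val S).comp (aeval ![x', y'])
  have hF0 : F (X 0) = x := by simp [F, x']
  have hF1 : F (X 1) = y := by simp [F, y']
  have hmem := key2 (p := p)
  set Φ : MvPolynomial (Fin 2) (ZMod p) :=
    H2.EA.tl p (X 0 + X 1 + X 0 * X 1) - H2.EA.tl p (X 0) - H2.EA.tl p (X 1) with hΦ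
  have hz : F Φ a = 0 := by
    rw [mem_pow_idealOfVars_iff] at hmem
    rw [Φ.as_sum, map_sum, LinearMap.sum_apply]
    refine Finset.sum_eq_zero fun m hm => ?_
    have hdeg := hmem m hm
    have hdm : Finsupp.degree m = m 0 + m 1 := by
      rw [Finsupp.degree_eq_sum, Fin.sum_univ_two]
    have hmon : F (monomial m (coeff m Φ)) = (coeff m Φ) • (x ^ (m 0) * y ^ (m 1)) := by
      rw [monomial_eq, Finsupp.prod_fintype _ _ (fun i => pow_zero _), Fin.prod_univ_two, map_mul,
        map_mul, map_pow, map_pow, hF0, hF1, ← MvPolynomial.algebraMap_eq, AlgHom.commutes,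
        Algebra.algebraMap_eq_smul_one, smul_mul_assoc, one_mul]
    rw [hmon, LinearMap.smul_apply, hxa _ _ (by omega), smul_zero]
  have hE : F Φ = H2.EA.tl p (x + y + x * y) - H2.EA.tl p x - H2.EA.tl p y := by
    rw [hΦ, map_sub, map_sub, tl_map, tl_map, tl_map, map_add, map_add, map_mul, hF0, hF1]
  rw [hE, LinearMap.sub_apply, LinearMap.sub_apply, sub_sub, sub_eq_zero] at hz
  exact hz

theorem t_LOG2 : H2.EA.S_LOG2 := by
  intro p _ M _ _ E _ _ x B hxB hxp v hv
  have hpos : 0 < p := (Fact.out : p.Prime).pos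
  have hpow : ∀ i, ∀ a ∈ B, (x ^ i) a ∈ B := by
    intro i
    induction i with
    | zero => intro a ha; simpa using ha
    | succ n ih =>
      intro a ha
      rw [pow_succ']
      exact hxB _ (ih a ha)
  have hbig : ∀ i, p ≤ i → ∀ a ∈ B, (x ^ i) a = 0 := by
    intro i hi a ha
    obtain ⟨k, rfl⟩ := Nat.exists_eq_add_of_le hi
    rw [add_comm, pow_add, Module.End.mul_apply, hxp a ha, map_zero]
  have main : ∀ k i, i + k = p → 1 ≤ i → ∀ i', i ≤ i' → ∀ a ∈ B, v ((x ^ i') a) = 0 := by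
    intro k
    induction k with
    | zero =>
      intro i hi _ i' hi' a ha
      rw [hbig i' (by omega) a ha, map_zero]
    | succ k ih =>
      intro i hi hi1 i' hi' a ha
      have ih' := ih (i + 1) (by omega) (by omega)
      rcases Nat.lt_or_ge i i' with h | h
      · exact ih' i' h a ha
      · have hii : i' = i := by omega
        subst hii
        have h0 := hv _ (hpow (i' - 1) a ha)
        rw [H2.EA.tl, LinearMap.sum_apply, map_sum] at h0
        have hp1 : p - 1 = (p - 2) + 1 := by omega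
        rw [hp1, Finset.sum_range_succ'] at h0
        rw [Finset.sum_eq_zero] at h0
        · simp only [LinearMap.smul_apply, map_smul] at h0
          rw [← Module.End.mul_apply, ← pow_add] at h0
          have : 0 + 1 + (i' - 1) = i' := by omega
          rw [this] at h0
          simpa using h0
        · intro j _
          rw [LinearMap.smul_apply, map_smul, ← Module.End.mul_apply, ← pow_add,
            ih' _ (by omega) a ha, smul_zero]
  intro a ha
  have := main (p - 1) 1 (by omega) le_rfl 1 le_rfl a ha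
  simpa using this

end H11.EA
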