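import Pool.Agent.H2.EA.Stm

set_option autoImplicit false

open Finset

namespace H11.EA

open H2.EA

section poly
variable {p : ℕ} [Fact p.Prime] {R : Type*} [Ring R] [Algebra (ZMod p) R]

theorem tl_comm {x y : R} (h : Commute x y) : Commute (tl p x) y := by
  unfold tl
  exact Commute.sum_left _ _ _ fun i _ => (h.pow_left _).smul_left _

theorem tq_comm {x y : R} (h : Commute x y) : Commute (tq p x) y := by
  unfold tq
  exact Commute.sum_left _ _ _ fun i _ => (h.pow_left _).smul_left _

theorem tq_zero : tq p (0 : R) = 1 := by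
  have h2 : 2 ≤ p := (Fact.out : p.Prime).two_le
  have hp1 : p - 1 = (p - 2) + 1 := by omega
  rw [tq, hp1, Finset.sum_range_succ', Finset.sum_eq_zero]
  · simp
  · intro i _
    rw [zero_pow (Nat.succ_ne_zero i), smul_zero]

theorem tl_zero : tl p (0 : R) = 0 := by
  rw [tl_eq, zero_mul]

end poly

variable {p : ℕ} [Fact p.Prime] {G A : Type} [Group G] [AddCommGroup A] [Module (ZMod p) A]
  (D : Dat p G A)

theorem Z_mono (K : Subgroup G) (n : ℕ) : D.Z K n ≤ D.Z K (n + 1) := by
  induction n with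
  | zero =>
    intro a ha
    rw [D.mem_Z_zero] at ha
    rw [ha]; exact Submodule.zero_mem _
  | succ n ih =>
    intro a ha
    rw [D.mem_Z_succ] at ha ⊢
    exact fun k hk => ih (ha k hk)

theorem Z_anti {K K' : Subgroup G} (h : K ≤ K') (n : ℕ) : D.Z K' n ≤ D.Z K n := by
  induction n with
  | zero =>
    intro a ha
    rw [D.mem_Z_zero] at ha
    rw [ha]; exact Submodule.zero_mem _
  | succ n ih =>
    intro a ha
    rw [D.mem_Z_succ] at ha ⊢
    exact fun k hk => ih (ha k (h hk))

theorem Z_stable (K : Subgroup G) (T : Module.End (ZMod p) A) (hT : ∀ k, Commute T (D.N k)) :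
    ∀ n : ℕ, ∀ a ∈ D.Z K n, T a ∈ D.Z K n := by
  intro n
  induction n with
  | zero =>
    intro a ha
    rw [D.mem_Z_zero] at ha ⊢
    rw [ha, map_zero]
  | succ n ih =>
    intro a ha
    rw [D.mem_Z_succ] at ha ⊢
    intro k hk
    have h1 : D.N k (T a) = T (D.N k a) := by
      rw [← Module.End.mul_apply, ← (hT k).eq, Module.End.mul_apply]
    rw [h1]
    exact ih _ (ha k hk)

theorem act_N_commute (g k : G) : Commute (D.act g) (D.N k) := by
  unfold Dat.N
  exact (D.act_commute g k).sub_right (Commute.one_right _)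

theorem lg_N_commute (g k : G) : Commute (D.lg g) (D.N k) := tl_comm (D.N_commute g k)

theorem lq_N_commute (g k : G) : Commute (D.lq g) (D.N k) := tq_comm (D.N_commute g k)

theorem lq_act_commute (g k : G) : Commute (D.lq g) (D.act k) :=
  tq_comm (act_N_commute D k g).symm

theorem lq_commute (g k : G) : Commute (D.lq g) (D.lq k) :=
  (tq_comm (lq_N_commute D g k).symm).symm

theorem N_mul (x y : G) : D.N (x * y) = D.N x + D.N y + D.N x * D.N y := by
  unfold Dat.N
  rw [map_mul]
  noncomm_ring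

theorem N_ι (a : A) : D.N (D.ι a) = 0 := by
  unfold Dat.N
  rw [D.act_ι, sub_self]

theorem lq_ι (a : A) : D.lq (D.ι a) = 1 := by
  unfold Dat.lq
  rw [N_ι, tq_zero]

theorem lg_ι (a : A) : D.lg (D.ι a) = 0 := by
  unfold Dat.lg
  rw [N_ι, tl_zero]

theorem Z_pow (K : Subgroup G) (y : G) (hy : y ∈ K) : ∀ j n : ℕ, ∀ a ∈ D.Z K n,
    ((D.N y) ^ j) a ∈ D.Z K (n - j) := by
  intro j
  induction j with
  | zero => intro n a ha; simpa using ha
  | succ j ih =>
    intro n a ha
    rw [pow_succ', Module.End.mul_apply]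
    have h1 := ih n a ha
    rcases Nat.eq_zero_or_pos (n - j) with h | h
    · rw [h, D.mem_Z_zero] at h1
      rw [h1, map_zero]
      exact Submodule.zero_mem _
    · have h2 : n - j = (n - (j + 1)) + 1 := by omega
      rw [h2, D.mem_Z_succ] at h1
      exact h1 y hy

theorem v_N {E : Type} [AddCommGroup E] [Module (ZMod p) E] (v : A →ₗ[ZMod p] E) (x : G)
    (h : ∀ a, v (D.act x a) = v a) (a : A) : v (D.N x a) = 0 := by
  unfold Dat.N
  rw [LinearMap.sub_apply, map_sub, h, Module.End.one_apply, sub_self]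

theorem v_lg {E : Type} [AddCommGroup E] [Module (ZMod p) E] (v : A →ₗ[ZMod p] E) (x : G)
    (h : ∀ a, v (D.act x a) = v a) (a : A) : v (D.lg x a) = 0 := by
  rw [D.lg_eq, Module.End.mul_apply, v_N D v x h]

theorem v_lq {E : Type} [AddCommGroup E] [Module (ZMod p) E] (v : A →ₗ[ZMod p] E) (x : G)
    (h : ∀ a, v (D.act x a) = v a) (a : A) : v (D.lq x a) = v a := by
  have h2 : 2 ≤ p := (Fact.out : p.Prime).two_le
  have hp1 : p - 1 = (p - 2) + 1 := by omega
  unfold Dat.lq
  rw [tq, hp1, Finset.sum_range_succ', LinearMap.add_apply, map_add, LinearMap.sum_apply, map_sum,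
    Finset.sum_eq_zero]
  · simp
  · intro i _
    rw [LinearMap.smul_apply, map_smul, pow_succ' (D.N x), Module.End.mul_apply, v_N D v x h,
      smul_zero]

theorem t_ZF (hLOG1 : S_LOG1) : S_ZF := by
  intro p _ G A _ _ _ D
  refine ⟨Z_mono D, fun K K' n h => Z_anti D h n, ?_, ?_, ?_, ?_, ?_⟩
  · intro K n g a ha
    exact ⟨Z_stable D K _ (act_N_commute D g) n a ha, Z_stable D K _ (D.N_commute g) n a ha,
      Z_stable D K _ (lg_N_commute D g) n a ha, Z_stable D K _ (lq_N_commute D g) n a ha⟩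
  · intro K n k hk a ha
    have h1 : D.N k a ∈ D.Z K n := (D.mem_Z_succ.mp ha) k hk
    refine ⟨h1, ?_⟩
    rw [D.lg_eq', Module.End.mul_apply]
    exact Z_stable D K _ (lq_N_commute D k) n _ h1
  · intro K n i j x hx y hy a ha hij
    rw [Module.End.mul_apply]
    have h1 := Z_pow D K x hx i _ _ (Z_pow D K y hy j n a ha)
    have h2 : n - j - i = 0 := by omega
    rw [h2, D.mem_Z_zero] at h1
    exact h1
  · intro K x hx y hy a ha
    unfold Dat.lg
    rw [N_mul]
    refine hLOG1 p A (D.N x) (D.N y) (D.N_commute x y) a ?_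
    intro i j hij
    rw [Module.End.mul_apply]
    have h1 := Z_pow D K x hx i _ _ (Z_pow D K y hy j p a ha)
    have h2 : p - j - i = 0 := by omega
    rw [h2, D.mem_Z_zero] at h1
    exact h1
  · intro E _ _ v x h a
    exact v_lg D v x h a

theorem t_HOM : S_HOM := by
  intro p _ G A _ _ _ D K n co hA
  let gs : (Fin n → ZMod p) → K := fun s =>
    (List.ofFn (fun i => (⟨co.k i, co.hk i⟩ : K) ^ (s i).val)).prod
  have key : ∀ (M : Type) [AddCommGroup M] [Module (ZMod p) M] (f : G → M),
      (∀ x ∈ K, ∀ y ∈ K, f (x * y) = f x + f y) → ∀ s, f (gs s : G) = ∑ i, s i • f (co.k i) := by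
    intro M _ _ f hf s
    let φ : K →* Multiplicative M :=
      MonoidHom.mk' (fun x => Multiplicative.ofAdd (f x)) (by
        intro x y
        rw [Subgroup.coe_mul, hf x x.2 y y.2, ofAdd_add])
    have h1 : Multiplicative.toAdd (φ (gs s)) = f (gs s : G) := rfl
    rw [← h1]
    simp only [gs]
    rw [map_list_prod, List.map_ofFn, List.prod_ofFn, toAdd_prod]
    refine Finset.sum_congr rfl fun i _ => ?_
    simp only [Function.comp, map_pow, toAdd_pow]
    have h2 : Multiplicative.toAdd (φ ⟨co.k i, co.hk i⟩) = f (co.k i) := rfl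
    rw [h2, ← Nat.cast_smul_eq_nsmul (ZMod p), ZMod.natCast_zmod_val]
  have hα : ∀ s, co.α (gs s : G) = s := by
    intro s
    rw [key (Fin n → ZMod p) co.α co.α_mul s]
    simp only [co.α_k]
    ext j
    simp [Finset.sum_apply, Pi.single_apply]
  refine ⟨?_, fun s => ⟨gs s, (gs s).2, hα s⟩⟩
  intro M _ _ f hf hfι x hx
  have hgK : (gs (co.α x) : G) ∈ K := (gs (co.α x)).2
  have hy : x * (gs (co.α x) : G)⁻¹ ∈ K := K.mul_mem hx (K.inv_mem hgK)
  have h0 : co.α (x * (gs (co.α x) : G)⁻¹) = 0 := by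
    have h1 := co.α_mul _ hy _ hgK
    rw [inv_mul_cancel_right, hα] at h1
    exact (add_eq_right.mp h1.symm)
  obtain ⟨y, hyK, a, hya⟩ := co.ker _ hy h0
  have hone : f 1 = 0 := by
    have := hf 1 K.one_mem 1 K.one_mem
    rw [mul_one] at this
    exact (add_eq_left.mp this.symm)
  have hpow : ∀ m : ℕ, f (y ^ m) = m • f y := by
    intro m
    induction m with
    | zero => simp [hone]
    | succ m ih => rw [pow_succ, hf _ (K.pow_mem hyK m) _ hyK, ih, succ_nsmul]
  have hfy : f (x * (gs (co.α x) : G)⁻¹) = 0 := by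
    rw [hya, hf _ (K.pow_mem hyK p) _ (hA a), hfι, add_zero, hpow,
      ← Nat.cast_smul_eq_nsmul (ZMod p), ZMod.natCast_self, zero_smul]
  have h2 := hf _ hy _ hgK
  rw [inv_mul_cancel_right, hfy, zero_add, key M f hf] at h2
  exact h2

end H11.EA
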